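import Pool.Agent.Lib.H89.AhlforsSchwarz

set_option autoImplicit false

/-!
An Ahlfors–Schwarz lemma for entire curves in projective space given by vectors of entire
functions which may have common zeros.
-/

open Filter Topology ComplexConjugate

namespace Pool.Agent.H89.AS

variable {ι : Type*} [Fintype ι]

/-- **Ahlfors–Schwarz lemma**, local version. -/
theorem eq_zero_of_local {H : ℂ → ℝ} {p r : ℕ} (hp : 1 ≤ p) (hr : 1 ≤ r) (C : ℝ)
    (hH : ∀ z₀, ∃ (y : ℂ → ι → ℂ) (Q : ℂ → ℂ),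
      (∀ i, ∀ᶠ z in 𝓝 z₀, DifferentiableAt ℂ (fun z => y z i) z) ∧
      (∀ᶠ z in 𝓝 z₀, DifferentiableAt ℂ Q z) ∧ y z₀ ≠ 0 ∧
      (∀ᶠ z in 𝓝 z₀, H z = ‖Q z‖ ^ 2 * nsq (y z) ^ p) ∧
      ‖Q z₀‖ ^ 2 * nsq (y z₀) ^ (p + 2 * r) ≤
        C * wsq (y z₀) (fun i => deriv (fun z => y z i) z₀) ^ r)
    (w : ℂ) : H w = 0 := by
  by_contra hHw
  have hp' : (0 : ℝ) < p := by exact_mod_cast hp
  have hr' : (0 : ℝ) < r := by exact_mod_cast hr
  have hHc : Continuous H := by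
    rw [continuous_iff_continuousAt]
    intro z₀
    obtain ⟨y, Q, hy, hQ, -, hHe, -⟩ := hH z₀
    have h1 : ContinuousAt (fun z => ‖Q z‖ ^ 2 * nsq (y z) ^ p) z₀ := by
      have h2 : ContinuousAt (fun z => nsq (y z)) z₀ := by
        unfold nsq
        exact tendsto_finsetSum _ fun i _ =>
          (((hy i).self_of_nhds.continuousAt).norm.pow 2)
      exact ((hQ.self_of_nhds.continuousAt).norm.pow 2).mul (h2.pow p)
    exact h1.congr (by filter_upwards [hHe] with z hz; exact hz.symm)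
  have hH0 : ∀ z, 0 ≤ H z := by
    intro z
    obtain ⟨y, Q, -, -, -, hHe, -⟩ := hH z
    rw [hHe.self_of_nhds]
    have := nsq_nonneg (y z)
    positivity
  have hHwpos : 0 < H w := lt_of_le_of_ne (hH0 w) (Ne.symm hHw)
  have hCpos : 0 ≤ C := by
    by_contra hC
    push Not at hC
    obtain ⟨y, Q, -, -, hy0, hHe, hb⟩ := hH w
    have h2 : C * wsq (y w) (fun i => deriv (fun z => y z i) w) ^ r ≤ 0 :=
      mul_nonpos_of_nonpos_of_nonneg hC.le (pow_nonneg (wsq_nonneg _ _) _)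
    have h3 : 0 < ‖Q w‖ ^ 2 * nsq (y w) ^ (p + 2 * r) := by
      have h4 := nsq_pos hy0
      rw [hHe.self_of_nhds] at hHwpos
      rw [pow_add, ← mul_assoc]
      positivity
    linarith
  -- bound on discs
  have hdisc : ∀ R : ℝ, ‖w‖ < R → H w * (R ^ 2 - ‖w‖ ^ 2) ^ (2 * r) ≤
      C * (4 * r * R ^ 2 / p) ^ r := by
    intro R hR
    have hRpos : 0 < R := lt_of_le_of_lt (norm_nonneg _) hR
    set G : ℂ → ℝ := fun z => H z * (R ^ 2 - ‖z‖ ^ 2) ^ (2 * r) with hG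
    have hGc : Continuous G := by
      simp only [hG]
      exact hHc.mul (by fun_prop)
    obtain ⟨z₀, hz₀, hmax⟩ := (isCompact_closedBall (0 : ℂ) R).exists_isMaxOn
      ⟨w, by simpa using hR.le⟩ hGc.continuousOn
    have hw' : G w ≤ G z₀ := hmax (by simpa using hR.le)
    have hGw : 0 < G w := by
      simp only [hG]
      have h2 : 0 < R ^ 2 - ‖w‖ ^ 2 := by
        have : 0 ≤ ‖w‖ := norm_nonneg _
        nlinarith
      positivity
    refine hw'.trans ?_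
    have hz₀' : ‖z₀‖ ≤ R := by simpa using hz₀
    have hz₀lt : ‖z₀‖ < R := by
      refine lt_of_le_of_ne hz₀' fun heq => ?_
      have : G z₀ = 0 := by
        simp only [hG, heq, sub_self]
        rw [zero_pow (by omega), mul_zero]
      linarith
    obtain ⟨y, Q, hy, hQ, hy0, hHe, hb⟩ := hH z₀
    have hGe : ∀ᶠ z in 𝓝 z₀, G z = ‖Q z‖ ^ 2 * nsq (y z) ^ p * (R ^ 2 - ‖z‖ ^ 2) ^ (2 * r) := by
      filter_upwards [hHe] with z hz
      simp only [hG]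
      rw [hz]
    have hGz₀ := hGe.self_of_nhds
    have hQ0 : Q z₀ ≠ 0 := by
      intro h0
      have : G z₀ = 0 := by rw [hGz₀, h0]; simp
      linarith
    have hloc := local_bound (x := y) (Q := Q) (z₀ := z₀) hy hQ hy0 hQ0 hz₀lt p r (by
        filter_upwards [Metric.isOpen_ball.mem_nhds
          (show z₀ ∈ Metric.ball (0 : ℂ) R by simpa using hz₀lt), hGe] with z hz hz'
        rw [← hz', ← hGz₀]
        exact hmax (by simpa using (mem_ball_zero_iff.mp hz).le))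
    have hDpos : 0 < R ^ 2 - ‖z₀‖ ^ 2 := by
      have : 0 ≤ ‖z₀‖ := norm_nonneg _
      nlinarith
    have hN0 := nsq_pos hy0
    have hW0 := wsq_nonneg (y z₀) (fun i => deriv (fun z => y z i) z₀)
    set W₀ := wsq (y z₀) (fun i => deriv (fun z => y z i) z₀) with hW₀
    set N₀ := nsq (y z₀)
    set D := R ^ 2 - ‖z₀‖ ^ 2 with hD
    have h1 : W₀ ≤ N₀ ^ 2 * (4 * r * R ^ 2 / p / D ^ 2) := by
      have e : W₀ = (p * (W₀ / 2 / N₀ ^ 2)) * (2 * N₀ ^ 2 / p) := by field_simp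
      rw [e]
      calc _ ≤ ((2 * r : ℕ) * (R ^ 2 / D ^ 2)) * (2 * N₀ ^ 2 / p) := by gcongr
        _ = _ := by push_cast; field_simp; ring
    have h2 : ‖Q z₀‖ ^ 2 * N₀ ^ p * N₀ ^ (2 * r) ≤
        C * (N₀ ^ 2 * (4 * r * R ^ 2 / p / D ^ 2)) ^ r := by
      calc ‖Q z₀‖ ^ 2 * N₀ ^ p * N₀ ^ (2 * r) = ‖Q z₀‖ ^ 2 * N₀ ^ (p + 2 * r) := by
            rw [pow_add]; ring
        _ ≤ C * W₀ ^ r := hb
        _ ≤ _ := by gcongr
    have h3 : ‖Q z₀‖ ^ 2 * N₀ ^ p ≤ C * (4 * r * R ^ 2 / p / D ^ 2) ^ r := by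
      have h2' : N₀ ^ (2 * r) * (‖Q z₀‖ ^ 2 * N₀ ^ p) ≤
          N₀ ^ (2 * r) * (C * (4 * r * R ^ 2 / p / D ^ 2) ^ r) := by
        calc _ = ‖Q z₀‖ ^ 2 * N₀ ^ p * N₀ ^ (2 * r) := by ring
          _ ≤ _ := h2
          _ = _ := by rw [mul_pow, ← pow_mul]; ring
      exact le_of_mul_le_mul_left h2' (by positivity)
    calc G z₀ = ‖Q z₀‖ ^ 2 * N₀ ^ p * D ^ (2 * r) := hGz₀
      _ ≤ C * (4 * r * R ^ 2 / p / D ^ 2) ^ r * D ^ (2 * r) := by gcongr
      _ = C * (4 * r * R ^ 2 / p) ^ r := by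
        rw [div_pow _ (D ^ 2), ← pow_mul]
        field_simp
  -- let `R → ∞`
  set K : ℝ := H w with hK
  set M : ℝ := C * (16 * r / p) ^ r with hM
  have hM0 : 0 ≤ M := by positivity
  obtain ⟨R, hR1, hR2⟩ : ∃ R : ℝ, (2 * ‖w‖ + 1 ≤ R) ∧ M < K * R ^ 2 := by
    refine ⟨max (2 * ‖w‖ + 1) (M / K + 1), le_max_left _ _, ?_⟩
    set R := max (2 * ‖w‖ + 1) (M / K + 1)
    have h1 : M / K + 1 ≤ R := le_max_right _ _
    have h2 : 1 ≤ R := by
      have : 0 ≤ M / K := by positivity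
      linarith
    have h3 : M / K < R ^ 2 := by nlinarith
    rw [div_lt_iff₀ hHwpos] at h3
    linarith
  have hwn : 0 ≤ ‖w‖ := norm_nonneg _
  have hR0 : 1 ≤ R := by linarith
  have h1 := hdisc R (by linarith)
  have h2 : R ^ 2 / 2 ≤ R ^ 2 - ‖w‖ ^ 2 := by nlinarith
  have h3 : K * (R ^ 2 / 2) ^ (2 * r) ≤ C * (4 * r * R ^ 2 / p) ^ r := by
    refine le_trans ?_ h1
    gcongr
  have h4 : K * (R ^ 2) ^ r ≤ M := by
    have e1 : (R ^ 2 / 2) ^ (2 * r) = (R ^ 2) ^ r * ((R ^ 2) ^ r / 4 ^ r) := by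
      rw [div_pow, two_mul, pow_add, pow_add]
      rw [show (4 : ℝ) ^ r = 2 ^ r * 2 ^ r by rw [← mul_pow]; norm_num]
      ring
    have e2 : (4 * r * R ^ 2 / p : ℝ) ^ r = (16 * r / p) ^ r * ((R ^ 2) ^ r / 4 ^ r) := by
      rw [← div_pow, ← mul_pow]
      congr 1
      ring
    rw [e1, e2, ← mul_assoc, ← mul_assoc] at h3
    have e3 : 0 < (R ^ 2) ^ r / (4 : ℝ) ^ r := by positivity
    exact le_of_mul_le_mul_right h3 e3
  have h5 : R ^ 2 ≤ (R ^ 2) ^ r := by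
    calc R ^ 2 = (R ^ 2) ^ 1 := (pow_one _).symm
      _ ≤ (R ^ 2) ^ r := pow_le_pow_right₀ (by nlinarith) hr
  have h6 : K * R ^ 2 ≤ K * (R ^ 2) ^ r := by gcongr
  linarith

theorem nsq_smul (c : ℂ) (x : ι → ℂ) : nsq (c • x) = ‖c‖ ^ 2 * nsq x := by
  simp only [nsq, Pi.smul_apply, smul_eq_mul, norm_mul, mul_pow, Finset.mul_sum]

/-- The local form of a vector of entire functions. -/
theorem exists_factor {x : ℂ → ι → ℂ} (hx : ∀ i, Differentiable ℂ (fun z => x z i)) {w : ℂ}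
    (hw : x w ≠ 0) (z₀ : ℂ) : ∃ (m : ℕ) (y : ℂ → ι → ℂ), AnalyticAt ℂ y z₀ ∧ y z₀ ≠ 0 ∧
      ∀ᶠ z in 𝓝 z₀, x z = (z - z₀) ^ m • y z := by
  have hxd : Differentiable ℂ x := differentiable_pi.mpr hx
  have hxa : AnalyticOnNhd ℂ x Set.univ := fun z _ => hxd.analyticAt z
  refine (AnalyticAt.exists_eventuallyEq_pow_smul_nonzero_iff (hxa z₀ trivial)).mpr fun h0 => ?_
  have h1 : x = 0 := hxa.eq_of_eventuallyEq (z₀ := z₀) (fun z _ => analyticAt_const) h0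
  exact hw (by rw [h1]; rfl)

theorem wsq_factor {x : ℂ → ι → ℂ} {y : ℂ → ι → ℂ} {z₀ z : ℂ} {m : ℕ}
    (hy : ∀ᶠ z in 𝓝 z, DifferentiableAt ℂ y z)
    (h : ∀ᶠ z in 𝓝 z, x z = (z - z₀) ^ m • y z) :
    wsq (x z) (fun i => deriv (fun z => x z i) z) =
      (‖z - z₀‖ ^ (2 * m)) ^ 2 * wsq (y z) (fun i => deriv (fun z => y z i) z) := by
  have h1 : ∀ i, deriv (fun z => x z i) z =
      m * (z - z₀) ^ (m - 1) * y z i + (z - z₀) ^ m * deriv (fun z => y z i) z := by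
    intro i
    have h2 : (fun z => x z i) =ᶠ[𝓝 z] fun z => (z - z₀) ^ m * y z i := by
      filter_upwards [h] with z hz
      rw [hz]
      rfl
    rw [h2.deriv_eq]
    have h3 : HasDerivAt (fun z => (z - z₀) ^ m) (m * (z - z₀) ^ (m - 1) * 1) z :=
      ((hasDerivAt_id z).sub_const z₀).pow m
    have h4 : HasDerivAt (fun z => y z i) (deriv (fun z => y z i) z) z :=
      (differentiableAt_pi.mp hy.self_of_nhds i).hasDerivAt
    have h5 := (h3.mul h4).deriv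
    rw [mul_one] at h5
    exact h5
  unfold wsq
  rw [Finset.mul_sum]
  refine Finset.sum_congr rfl fun i _ => ?_
  rw [Finset.mul_sum]
  refine Finset.sum_congr rfl fun j _ => ?_
  simp only [h1]
  rw [h.self_of_nhds]
  simp only [Pi.smul_apply, smul_eq_mul]
  rw [← mul_pow, ← norm_pow (z - z₀), ← norm_mul]
  congr 2
  ring

/-- **Ahlfors–Schwarz lemma** for vectors of entire functions with common zeros. -/
theorem eq_zero' {x : ℂ → ι → ℂ} {Q : ℂ → ℂ}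
    (hx : ∀ i, Differentiable ℂ (fun z => x z i))
    (hQ : ∀ z, x z ≠ 0 → DifferentiableAt ℂ Q z) {p r : ℕ} (hp : 1 ≤ p) (hr : 1 ≤ r) (C : ℝ)
    (hb : ∀ z, x z ≠ 0 → ‖Q z‖ ^ 2 * nsq (x z) ^ (p + 2 * r) ≤
      C * wsq (x z) (fun i => deriv (fun z => x z i) z) ^ r) {w : ℂ} (hw : x w ≠ 0) : Q w = 0 := by
  classical
  choose m y hya hy0 hxy using exists_factor hx hw
  -- `Q (z - z₀) ^ (m p)` has a removable singularity
  have key : ∀ z₀, ∃ Q' : ℂ → ℂ, (∀ᶠ z in 𝓝 z₀, DifferentiableAt ℂ Q' z) ∧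
      (∀ᶠ z in 𝓝 z₀, z ≠ z₀ → x z ≠ 0 ∧
        ‖Q z‖ ^ 2 * nsq (x z) ^ p = ‖Q' z‖ ^ 2 * nsq (y z₀ z) ^ p) ∧
      ‖Q' z₀‖ ^ 2 * nsq (y z₀ z₀) ^ (p + 2 * r) ≤
        C * wsq (y z₀ z₀) (fun i => deriv (fun z => y z₀ z i) z₀) ^ r := by
    intro z₀
    have hyd : ∀ᶠ z in 𝓝 z₀, DifferentiableAt ℂ (y z₀) z :=
      (hya z₀).eventually_analyticAt.mono fun z hz => hz.differentiableAt
    have hyn : ∀ᶠ z in 𝓝 z₀, y z₀ z ≠ 0 := (hya z₀).continuousAt.eventually_ne (hy0 z₀)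
    set Q₁ : ℂ → ℂ := fun z => Q z * (z - z₀) ^ (m z₀ * p) with hQ₁
    have hxn : ∀ᶠ z in 𝓝 z₀, z ≠ z₀ → x z ≠ 0 := by
      filter_upwards [hxy z₀, hyn] with z h1 h2 h3
      rw [h1]
      exact smul_ne_zero (pow_ne_zero _ (sub_ne_zero.mpr h3)) h2
    have hrel : ∀ᶠ z in 𝓝 z₀, z ≠ z₀ →
        ‖Q z‖ ^ 2 * nsq (x z) ^ p = ‖Q₁ z‖ ^ 2 * nsq (y z₀ z) ^ p := by
      filter_upwards [hxy z₀] with z h1 h3
      rw [h1, nsq_smul, hQ₁]
      simp only [norm_mul, norm_pow]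
      ring
    have hbd : ∀ᶠ z in 𝓝 z₀, z ≠ z₀ → ‖Q₁ z‖ ^ 2 * nsq (y z₀ z) ^ (p + 2 * r) ≤
        C * wsq (y z₀ z) (fun i => deriv (fun z => y z₀ z i) z) ^ r := by
      filter_upwards [hxn, hrel, (hxy z₀).eventually_nhds, hyd.eventually_nhds]
        with z h1 h2 h3 h4 h5
      have h6 := hb z (h1 h5)
      rw [wsq_factor h4 h3, mul_pow, pow_add, ← mul_assoc, h2 h5] at h6
      have h7 : nsq (x z) ^ (2 * r) = ((‖z - z₀‖ ^ (2 * m z₀)) ^ 2) ^ r *
          nsq (y z₀ z) ^ (2 * r) := by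
        rw [h3.self_of_nhds, nsq_smul, norm_pow]
        ring
      rw [h7] at h6
      have h8 : 0 < ((‖z - z₀‖ ^ (2 * m z₀)) ^ 2) ^ r := by
        have : 0 < ‖z - z₀‖ := norm_pos_iff.mpr (sub_ne_zero.mpr h5)
        positivity
      refine le_of_mul_le_mul_left ?_ h8
      calc _ = ‖Q₁ z‖ ^ 2 * nsq (y z₀ z) ^ p * (((‖z - z₀‖ ^ (2 * m z₀)) ^ 2) ^ r *
          nsq (y z₀ z) ^ (2 * r)) := by rw [pow_add]; ring
        _ ≤ _ := h6
        _ = _ := by ring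
    have hQ₁d : ∀ᶠ z in 𝓝 z₀, z ≠ z₀ → DifferentiableAt ℂ Q₁ z := by
      filter_upwards [hxn] with z h1 h2
      exact (hQ z (h1 h2)).mul (by fun_prop)
    -- continuity of the two sides of the bound
    have hNc : ContinuousAt (fun z => nsq (y z₀ z)) z₀ := by
      unfold nsq
      exact tendsto_finsetSum _ fun i _ =>
        ((continuousAt_pi.mp (hya z₀).continuousAt i).norm.pow 2)
    have hWc : ContinuousAt (fun z => wsq (y z₀ z) (fun i => deriv (fun z => y z₀ z i) z)) z₀ := by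
      have h1 : ∀ i, ContinuousAt (fun z => y z₀ z i) z₀ := fun i =>
        continuousAt_pi.mp (hya z₀).continuousAt i
      have h2 : ∀ i, ContinuousAt (fun z => deriv (fun z => y z₀ z i) z) z₀ := fun i =>
        (analyticAt_pi_iff.mp (hya z₀) i).deriv.continuousAt
      unfold wsq
      exact tendsto_finsetSum _ fun i _ => tendsto_finsetSum _ fun j _ =>
        ((((h1 i).mul (h2 j)).sub ((h1 j).mul (h2 i))).norm.pow 2)
    have hN0 : 0 < nsq (y z₀ z₀) := nsq_pos (hy0 z₀)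
    -- boundedness of `Q₁`
    obtain ⟨K, hK⟩ : ∃ K : ℝ, ∀ᶠ z in 𝓝 z₀, z ≠ z₀ → ‖Q₁ z‖ ≤ K := by
      set B := C * wsq (y z₀ z₀) (fun i => deriv (fun z => y z₀ z i) z₀) ^ r with hB
      have h1 : ∀ᶠ z in 𝓝 z₀, nsq (y z₀ z₀) / 2 < nsq (y z₀ z) :=
        hNc.eventually_const_lt (by linarith)
      have h2 : ∀ᶠ z in 𝓝 z₀,
          C * wsq (y z₀ z) (fun i => deriv (fun z => y z₀ z i) z) ^ r < B + 1 := by
        have h3 : ContinuousAt (fun z =>
          C * wsq (y z₀ z) (fun i => deriv (fun z => y z₀ z i) z) ^ r) z₀ :=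
          continuousAt_const.mul (hWc.pow r)
        exact h3.eventually_lt_const (by linarith)
      refine ⟨1 + (B + 1) / (nsq (y z₀ z₀) / 2) ^ (p + 2 * r), ?_⟩
      filter_upwards [hbd, h1, h2] with z h3 h4 h5 h6
      have h7 := (h3 h6).trans h5.le
      have h8 : ‖Q₁ z‖ ^ 2 * (nsq (y z₀ z₀) / 2) ^ (p + 2 * r) ≤ B + 1 := by
        refine le_trans ?_ h7
        gcongr
      have h9 : 0 < (nsq (y z₀ z₀) / 2) ^ (p + 2 * r) := by positivity
      have h10 : ‖Q₁ z‖ ^ 2 ≤ (B + 1) / (nsq (y z₀ z₀) / 2) ^ (p + 2 * r) := by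
        rwa [le_div_iff₀ h9]
      nlinarith [norm_nonneg (Q₁ z), sq_nonneg (‖Q₁ z‖ - 1)]
    obtain ⟨U, hU, hUo, hU0⟩ := eventually_nhds_iff.mp (hK.and hQ₁d)
    have hdiff := Complex.differentiableOn_update_limUnder_of_bddAbove (f := Q₁) (c := z₀)
      (hUo.mem_nhds hU0) (fun z hz => ((hU z hz.1).2 hz.2).differentiableWithinAt)
      ⟨K, by
        rintro _ ⟨z, hz, rfl⟩
        exact (hU z hz.1).1 hz.2⟩
    set Q' : ℂ → ℂ := Function.update Q₁ z₀ (limUnder (𝓝[≠] z₀) Q₁) with hQ'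
    have hQ'd : ∀ᶠ z in 𝓝 z₀, DifferentiableAt ℂ Q' z := by
      filter_upwards [hUo.mem_nhds hU0] with z hz
      exact hdiff.differentiableAt (hUo.mem_nhds hz)
    have hQ'e : ∀ z, z ≠ z₀ → Q' z = Q₁ z := fun z hz => Function.update_of_ne hz _ _
    refine ⟨Q', hQ'd, ?_, ?_⟩
    · filter_upwards [hxn, hrel] with z h1 h2 h3
      rw [hQ'e z h3]
      exact ⟨h1 h3, h2 h3⟩
    · have h1 : Tendsto (fun z => ‖Q' z‖ ^ 2 * nsq (y z₀ z) ^ (p + 2 * r)) (𝓝[≠] z₀)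
          (𝓝 (‖Q' z₀‖ ^ 2 * nsq (y z₀ z₀) ^ (p + 2 * r))) := by
        have h2 : ContinuousAt (fun z => ‖Q' z‖ ^ 2 * nsq (y z₀ z) ^ (p + 2 * r)) z₀ :=
          ((hQ'd.self_of_nhds.continuousAt).norm.pow 2).mul (hNc.pow _)
        exact h2.tendsto.mono_left nhdsWithin_le_nhds
      have h2 : Tendsto (fun z => C * wsq (y z₀ z) (fun i => deriv (fun z => y z₀ z i) z) ^ r)
          (𝓝[≠] z₀) (𝓝 (C * wsq (y z₀ z₀) (fun i => deriv (fun z => y z₀ z i) z₀) ^ r)) := by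
        have h3 : ContinuousAt (fun z =>
          C * wsq (y z₀ z) (fun i => deriv (fun z => y z₀ z i) z) ^ r) z₀ :=
          continuousAt_const.mul (hWc.pow r)
        exact h3.tendsto.mono_left nhdsWithin_le_nhds
      refine le_of_tendsto_of_tendsto h1 h2 ?_
      filter_upwards [hbd.filter_mono nhdsWithin_le_nhds, self_mem_nhdsWithin] with z h3 h4
      rw [hQ'e z h4]
      exact h3 h4
  choose Q' hQ'd hQ'e hQ'b using key
  let H : ℂ → ℝ := fun z => if x z = 0 then ‖Q' z z‖ ^ 2 * nsq (y z z) ^ p else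
    ‖Q z‖ ^ 2 * nsq (x z) ^ p
  have hH : H w = 0 := by
    refine eq_zero_of_local (ι := ι) hp hr C (fun z₀ => ?_) w
    by_cases h0 : x z₀ = 0
    · refine ⟨y z₀, Q' z₀, fun i => ?_, hQ'd z₀, hy0 z₀, ?_, hQ'b z₀⟩
      · exact (analyticAt_pi_iff.mp (hya z₀) i).eventually_analyticAt.mono
          fun z hz => hz.differentiableAt
      · filter_upwards [hQ'e z₀] with z hz
        by_cases hzz : z = z₀
        · subst hzz
          simp only [H, if_pos h0]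
        · obtain ⟨h1, h2⟩ := hz hzz
          simp only [H, if_neg h1]
          exact h2
    · have hev : ∀ᶠ z in 𝓝 z₀, x z ≠ 0 :=
        ((differentiable_pi.mpr hx).continuous.continuousAt).eventually_ne h0
      refine ⟨x, Q, fun i => Eventually.of_forall fun z => hx i z, ?_, h0, ?_, hb z₀ h0⟩
      · filter_upwards [hev] with z hz
        exact hQ z hz
      · filter_upwards [hev] with z hz
        simp only [H, if_neg hz]
  simp only [H, if_neg hw] at hH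
  have h1 := nsq_pos hw
  have h2 : nsq (x w) ^ p ≠ 0 := (pow_pos h1 p).ne'
  have h3 := (mul_eq_zero.mp hH).resolve_right h2
  rwa [sq_eq_zero_iff, norm_eq_zero] at h3

end Pool.Agent.H89.AS
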